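import Mathlib

namespace Pool.Agent.Results.MP_d8de41_al.NotUI

universe v

/-- The normal subgroup of the full direct product of the sequences equal to the identity on a set
in the ultrafilter `U`. -/
def null (U : Ultrafilter ℕ) (G : ℕ → Type v) [∀ i, Group (G i)] : Subgroup (∀ i, G i) where
  carrier := {g | {i | g i = 1} ∈ U}
  mul_mem' := by
    intro f g hf hg
    refine Filter.mem_of_superset (Filter.inter_mem hf hg) ?_
    rintro i ⟨h1, h2⟩
    change f i * g i = 1
    rw [show f i = 1 from h1, show g i = 1 from h2, one_mul]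
  one_mem' := by
    change {i | (1 : G i) = 1} ∈ (U : Filter ℕ)
    simp
  inv_mem' := by
    intro f hf
    refine Filter.mem_of_superset hf ?_
    intro i h
    change (f i)⁻¹ = 1
    rw [show f i = 1 from h, inv_one]

instance (U : Ultrafilter ℕ) (G : ℕ → Type v) [∀ i, Group (G i)] : (null U G).Normal where
  conj_mem := by
    intro f hf g
    refine Filter.mem_of_superset hf ?_
    intro i h
    change g i * f i * (g i)⁻¹ = 1
    rw [show f i = 1 from h, mul_one, mul_inv_cancel]

/-- A group `H` is a ui-group if it is a homomorphic image of the ultraproduct of a sequence of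
groups over a nonprincipal ultrafilter on `ℕ`. -/
def IsUI (H : Type*) [Group H] : Prop :=
  ∃ (G : ℕ → Type v) (_ : ∀ i, Group (G i)) (U : Ultrafilter ℕ),
    (∀ n : ℕ, U ≠ pure n) ∧ ∃ φ : ((∀ i, G i) ⧸ null U G) →* H, Function.Surjective φ

/-- The direct sum of countably many copies of the symmetric group `S₃`: finitely supported
sequences in `S₃`. -/
def sumS3 : Subgroup (ℕ → Equiv.Perm (Fin 3)) where
  carrier := {f | {n | f n ≠ 1}.Finite}
  mul_mem' := by
    intro f g hf hg
    refine (hf.union hg).subset ?_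
    intro n hn
    by_contra h
    simp only [Set.mem_union, Set.mem_ofPred_eq, not_or, not_not] at h
    exact hn (by simp [h.1, h.2])
  one_mem' := by simp
  inv_mem' := by
    intro f hf
    refine hf.subset ?_
    intro n hn h
    exact hn (by simp [h])

/-- The element with value `p` at `n` and `1` elsewhere. -/
def sg (n : ℕ) (p : Equiv.Perm (Fin 3)) : sumS3 :=
  ⟨fun m => if m = n then p else 1, by
    refine (Set.finite_singleton n).subset ?_
    intro m hm
    by_contra h
    exact hm (if_neg h)⟩

/-- The word `y² a y⁻¹ a⁻¹ b`. -/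
def w {G : Type*} [Group G] (a b y : G) : G := y ^ 2 * a * y⁻¹ * a⁻¹ * b

lemma w_ne_one : ∀ y : Equiv.Perm (Fin 3), w (Equiv.swap 0 1) (finRotate 3) y ≠ 1 := by
  unfold w
  decide

lemma w_one_one {G : Type*} [Group G] (y : G) : w 1 1 y = y := by
  simp [w, pow_two]

lemma map_w {G H : Type*} [Group G] [Group H] (f : G →* H) (a b y : G) :
    f (w a b y) = w (f a) (f b) (f y) := by
  simp [w]

set_option maxRecDepth 20000 in
lemma pow_six : ∀ p : Equiv.Perm (Fin 3), p ^ 6 = 1 := by decide

/-- The solution of the infinite system of equations, by downward recursion in every factor. -/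
def sol {G : ℕ → Type v} [∀ i, Group (G i)] (x y : ℕ → ∀ i, G i) (j : ℕ) : ℕ → G j
  | 0 => 1
  | k + 1 => w (x (j - (k + 1)) j) (y (j - (k + 1)) j) (sol x y j k)

theorem not_ui : ¬ IsUI.{v} sumS3 := by
  rintro ⟨G, _, U, hU, φ, hφ⟩
  let q : (∀ i, G i) →* ((∀ i, G i) ⧸ null U G) := QuotientGroup.mk' _
  have hq : Function.Surjective (φ.comp q) := by
    rw [MonoidHom.coe_comp]
    exact hφ.comp (QuotientGroup.mk'_surjective _)
  choose x hx using fun n => hq (sg n (Equiv.swap 0 1))
  choose y hy using fun n => hq (sg n (finRotate 3))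
  let t : ℕ → ∀ i, G i := fun n j => sol x y j (j - n)
  have hcof : ∀ n : ℕ, {j | n < j} ∈ U := by
    intro n
    have h1 : {j | n < j} ∈ (Filter.cofinite : Filter ℕ) := by
      rw [Filter.mem_cofinite]
      exact (Set.finite_Iic n).subset fun j hj => by
        simpa using hj
    refine (?_ : (U : Filter ℕ) ≤ Filter.cofinite) h1
    rw [Filter.le_cofinite_iff_compl_singleton_mem]
    intro m
    by_contra hm
    have h2 : {m} ∈ U := by
      rcases Ultrafilter.mem_or_compl_mem U {m} with h | h
      · exact h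
      · exact absurd h hm
    obtain ⟨k, -, hk⟩ := Ultrafilter.eq_pure_of_finite_mem (Set.finite_singleton m) h2
    exact hU k hk
  have hrec : ∀ n, (φ.comp q) (t n) = w (sg n (Equiv.swap 0 1)) (sg n (finRotate 3))
      ((φ.comp q) (t (n + 1))) := by
    intro n
    rw [← hx n, ← hy n, ← map_w]
    simp only [MonoidHom.comp_apply]
    congr 1
    rw [QuotientGroup.mk'_eq_mk']
    refine ⟨(t n)⁻¹ * w (x n) (y n) (t (n + 1)), ?_, by simp⟩
    refine Filter.mem_of_superset (hcof n) ?_
    intro j hj
    change (t n j)⁻¹ * w (x n j) (y n j) (t (n + 1) j) = 1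
    rw [inv_mul_eq_one]
    change sol x y j (j - n) = w (x n j) (y n j) (sol x y j (j - (n + 1)))
    have h3 : j - n = (j - (n + 1)) + 1 := by
      have : n < j := hj
      omega
    rw [h3, sol]
    have h4 : j - (j - (n + 1) + 1) = n := by
      have : n < j := hj
      omega
    rw [h4]
  set h : ℕ → sumS3 := fun n => (φ.comp q) (t n) with hh
  have hrec' : ∀ n i, (h n).1 i = w ((sg n (Equiv.swap 0 1)).1 i) ((sg n (finRotate 3)).1 i)
      ((h (n + 1)).1 i) := by
    intro n i
    have := congrArg (fun z : sumS3 => z.1 i) (hrec n)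
    exact this
  have h1 : ∀ n i, i ≠ n → (h n).1 i = (h (n + 1)).1 i := by
    intro n i hi
    rw [hrec' n i]
    simp only [sg, if_neg hi, w_one_one]
  have h2 : ∀ n, (h n).1 n ≠ 1 := by
    intro n
    rw [hrec' n n]
    simp only [sg, if_true]
    exact w_ne_one _
  have h3 : ∀ i n, n ≤ i → (h 0).1 i = (h n).1 i := by
    intro i n hn
    induction n with
    | zero => rfl
    | succ n ih =>
      rw [ih (by omega), h1 n i (by omega)]
  have h4 : ∀ i, (h 0).1 i ≠ 1 := by
    intro i
    rw [h3 i i le_rfl]
    exact h2 i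
  have h5 : {n | (h 0).1 n ≠ 1}.Finite := (h 0).2
  rw [Set.eq_univ_of_forall (s := {n | (h 0).1 n ≠ 1}) h4] at h5
  exact Set.infinite_univ h5

/-- **Main result.** There is a bounded torsion group that is not a ui-group: the direct sum of
countably many copies of `S₃`, a group of exponent `6`. -/
theorem result : ∃ (H : Type) (_ : Group H), (∃ n : ℕ, 0 < n ∧ ∀ h : H, h ^ n = 1) ∧
    ¬ IsUI.{v} H := by
  refine ⟨sumS3, inferInstance, ⟨6, by norm_num, ?_⟩, not_ui⟩
  intro h
  apply Subtype.ext
  funext i
  exact pow_six (h.1 i)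

end Pool.Agent.Results.MP_d8de41_al.NotUI
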